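import Pool.Agent.Helper22.G4.Poly
import Pool.Agent.Helper89.Cmd

/-!
# G4-T10: decoding a list of tokens in polynomial time
-/

namespace Pool.Agent.Helper83.G4

open Pool.Agent.Helper22.G4 Pool.Agent.Helper89 Pool.Agent.Helper91.PolyTime

/-- the three stacks -/
inductive KD : Type
  | inp | scr | out
  deriving DecidableEq

instance instFintypeKD : Fintype KD where
  elems := {.inp, .scr, .out}
  complete := by intro x; cases x <;> decide

/-- the alphabets -/
def GD : KD → Type
  | .inp => Bool
  | .scr => Tok
  | .out => Tok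

instance instFintypeGD : ∀ k, Fintype (GD k)
  | .inp => inferInstanceAs (Fintype Bool)
  | .scr => inferInstanceAs (Fintype Tok)
  | .out => inferInstanceAs (Fintype Tok)

/-- states of the stacks -/
def StD (a : List Bool) (b c : List Tok) : ∀ k, List (GD k)
  | .inp => a
  | .scr => b
  | .out => c

theorem update_inp (a a' : List Bool) (b c : List Tok) :
    Function.update (StD a b c) KD.inp a' = StD a' b c := by
  funext k
  cases k <;> rfl

theorem update_scr (a : List Bool) (b b' c : List Tok) :
    Function.update (StD a b c) KD.scr b' = StD a b' c := by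
  funext k
  cases k <;> rfl

theorem update_out (a : List Bool) (b c c' : List Tok) :
    Function.update (StD a b c) KD.out c' = StD a b c' := by
  funext k
  cases k <;> rfl

/-- the token with given bits -/
def tokOf : Bool → Bool → Bool → Bool → Tok
  | false, false, false, false => .tick
  | false, false, false, true => .var
  | false, false, true, false => .zero
  | false, false, true, true => .dig0
  | false, true, false, false => .dig1
  | false, true, false, true => .neg
  | false, true, true, false => .add
  | false, true, true, true => .mul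
  | true, false, false, false => .eq
  | true, false, false, true => .lt
  | true, false, true, false => .le
  | true, false, true, true => .not
  | true, true, false, false => .and
  | true, true, false, true => .or
  | true, true, true, _ => .or

theorem exists_bits (t : Tok) : ∃ b1 b2 b3 b4 : Bool, tokBits t = [b1, b2, b3, b4] ∧
    tokOf b1 b2 b3 b4 = t := by
  cases t
  · exact ⟨_, _, _, _, rfl, rfl⟩
  · exact ⟨_, _, _, _, rfl, rfl⟩
  · exact ⟨_, _, _, _, rfl, rfl⟩
  · exact ⟨_, _, _, _, rfl, rfl⟩
  · exact ⟨_, _, _, _, rfl, rfl⟩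
  · exact ⟨_, _, _, _, rfl, rfl⟩
  · exact ⟨_, _, _, _, rfl, rfl⟩
  · exact ⟨_, _, _, _, rfl, rfl⟩
  · exact ⟨_, _, _, _, rfl, rfl⟩
  · exact ⟨_, _, _, _, rfl, rfl⟩
  · exact ⟨_, _, _, _, rfl, rfl⟩
  · exact ⟨_, _, _, _, rfl, rfl⟩
  · exact ⟨_, _, _, _, rfl, rfl⟩
  · exact ⟨_, _, _, _, rfl, rfl⟩

/-- read a bit -/
def rd (c : Bool → Cmd GD) : Cmd GD := Cmd.case (Γ := GD) KD.inp .skip c

theorem runs_rd {c : Bool → Cmd GD} {x : Bool} {a : List Bool} {b d : List Tok}
    {T : ∀ k, List (GD k)} {n : ℕ} (h : Cmd.Runs (c x) (StD a b d) T n) :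
    Cmd.Runs (rd c) (StD (x :: a) b d) T (n + 1) := by
  refine Cmd.Runs.caseCons (a := x) (l := a) rfl ?_
  rw [update_inp]
  exact h

/-- body of the reading loop, after the first symbol of a token has been popped -/
def body : Cmd GD :=
  rd fun b1 => rd fun _ => rd fun b2 => rd fun _ => rd fun b3 => rd fun _ => rd fun b4 =>
    rd fun _ => Cmd.push (Γ := GD) KD.scr (tokOf b1 b2 b3 b4)

theorem runs_body (b1 b2 b3 b4 : Bool) (a : List Bool) (b c : List Tok) :
    Cmd.Runs body (StD (b1 :: true :: b2 :: true :: b3 :: true :: b4 :: false :: a) b c)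
      (StD a (tokOf b1 b2 b3 b4 :: b) c) 9 := by
  have h : Cmd.Runs (Cmd.push (Γ := GD) KD.scr (tokOf b1 b2 b3 b4)) (StD a b c)
      (StD a (tokOf b1 b2 b3 b4 :: b) c) 1 := by
    have h1 := Cmd.Runs.push (Γ := GD) (k := KD.scr) (a := tokOf b1 b2 b3 b4) (S := StD a b c)
    have h2 : Function.update (StD a b c) KD.scr (tokOf b1 b2 b3 b4 :: StD a b c KD.scr) =
      StD a (tokOf b1 b2 b3 b4 :: b) c := update_scr a b _ c
    rw [h2] at h1
    exact h1
  exact runs_rd (runs_rd (runs_rd (runs_rd (runs_rd (runs_rd (runs_rd (runs_rd h)))))))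

/-- reading loop -/
def rloop : Cmd GD := Cmd.loop (Γ := GD) KD.inp fun _ => body

theorem encL_cons_eq (t : Tok) (l : List Tok) (b1 b2 b3 b4 : Bool)
    (h : tokBits t = [b1, b2, b3, b4]) :
    PEnc.enc (t :: l) = true :: b1 :: true :: b2 :: true :: b3 :: true :: b4 :: false ::
      PEnc.enc l := by
  have h1 : PEnc.enc (t :: l) = pr (tokBits t) (PEnc.enc l) := rfl
  rw [h1, h]
  rfl

theorem runs_rloop (l : List Tok) : ∀ b : List Tok,
    Cmd.Runs rloop (StD (PEnc.enc l) b []) (StD [] (l.reverse ++ b) []) (10 * l.length + 1) := by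
  induction l with
  | nil => intro b; exact Cmd.Runs.loopNil rfl
  | cons t l ih =>
    intro b
    obtain ⟨b1, b2, b3, b4, h1, h2⟩ := exists_bits t
    rw [encL_cons_eq t l b1 b2 b3 b4 h1]
    have h3 := ih (t :: b)
    have h4 := runs_body b1 b2 b3 b4 (PEnc.enc l) b []
    rw [h2] at h4
    have h5 : (t :: l).reverse ++ b = l.reverse ++ (t :: b) := by simp
    rw [h5]
    have h6 : 10 * (t :: l).length + 1 = 9 + (10 * l.length + 1) + 1 := by
      simp only [List.length_cons]; ring
    rw [h6]
    refine Cmd.Runs.loopCons (a := true) (l := b1 :: true :: b2 :: true :: b3 :: true :: b4 ::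
      false :: PEnc.enc l) (T := StD (PEnc.enc l) (t :: b) []) rfl ?_ h3
    exact (congrArg (fun A => Cmd.Runs body A (StD (PEnc.enc l) (t :: b) []) 9)
      (update_inp _ _ b [])).mpr h4

/-- output loop -/
def oloop : Cmd GD := Cmd.loop (Γ := GD) KD.scr fun t => Cmd.push (Γ := GD) KD.out t

theorem runs_oloop (l : List Tok) : ∀ c : List Tok,
    Cmd.Runs oloop (StD [] l c) (StD [] [] (l.reverse ++ c)) (2 * l.length + 1) := by
  induction l with
  | nil => intro c; exact Cmd.Runs.loopNil rfl
  | cons t l ih =>
    intro c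
    have h3 := ih (t :: c)
    have h5 : (t :: l).reverse ++ c = l.reverse ++ (t :: c) := by simp
    rw [h5]
    have h6 : 2 * (t :: l).length + 1 = 1 + (2 * l.length + 1) + 1 := by
      simp only [List.length_cons]; ring
    rw [h6]
    refine Cmd.Runs.loopCons (a := t) (l := l) (T := StD [] l (t :: c)) rfl ?_ h3
    rw [update_scr]
    have h1 := Cmd.Runs.push (Γ := GD) (k := KD.out) (a := t) (S := StD [] l c)
    have h2 : Function.update (StD [] l c) KD.out (t :: StD [] l c KD.out) =
      StD [] l (t :: c) := update_out [] l c _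
    rw [h2] at h1
    exact h1

theorem single_inp (x : List Bool) : Cmd.single (Γ := GD) KD.inp x = StD x [] [] := by
  funext k
  cases k <;> rfl

theorem single_out (x : List Tok) : Cmd.single (Γ := GD) KD.out x = StD [] [] x := by
  funext k
  cases k <;> rfl

theorem length_enc (l : List Tok) : (PEnc.enc l).length = 9 * l.length := by
  induction l with
  | nil => rfl
  | cons t l ih =>
    obtain ⟨b1, b2, b3, b4, h1, -⟩ := exists_bits t
    rw [encL_cons_eq t l b1 b2 b3 b4 h1]
    simp only [List.length_cons, ih]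
    ring

/-- G4-T10 -/
theorem tm2_decode : Nonempty (Turing.TM2ComputableInPolyTime (fun l : List Tok => PEnc.enc l)
    (fun l : List Tok => l) (fun l => l)) := by
  refine ⟨Cmd.computable (Γ := GD) (fun l : List Tok => PEnc.enc l) (fun l : List Tok => l)
    (fun l => l) KD.inp KD.out (Equiv.refl Bool) (Equiv.refl Tok) (Cmd.seq rloop oloop)
    (2 * Polynomial.X + 2) ?_⟩
  intro l
  refine ⟨(10 * l.length + 1) + (2 * l.length + 1), ?_, ?_⟩
  · simp only [Polynomial.eval_add, Polynomial.eval_mul, Polynomial.eval_X,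
      Polynomial.eval_ofNat, length_enc]
    omega
  · have e1 : List.map (Equiv.refl Bool).symm (PEnc.enc l) = PEnc.enc l := by simp
    have e2 : List.map (Equiv.refl Tok).symm l = l := by simp
    have h1 := runs_rloop l []
    have h2 := runs_oloop l.reverse []
    rw [List.append_nil] at h1
    rw [List.append_nil, List.reverse_reverse, List.length_reverse] at h2
    have h3 := Cmd.Runs.seq h1 h2
    have s1 : Cmd.single (Γ := GD) KD.inp (List.map (Equiv.refl Bool).symm (PEnc.enc l)) =
        StD (PEnc.enc l) [] [] :=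
      (congrArg (fun x : List Bool => Cmd.single (Γ := GD) KD.inp x) e1).trans (single_inp _)
    have s2 : Cmd.single (Γ := GD) KD.out (List.map (Equiv.refl Tok).symm l) =
        StD [] [] l :=
      (congrArg (fun x : List Tok => Cmd.single (Γ := GD) KD.out x) e2).trans (single_out _)
    exact (congrArg₂ (fun A B => Cmd.Runs (Cmd.seq rloop oloop) A B
      ((10 * l.length + 1) + (2 * l.length + 1))) s1 s2).mpr h3

end Pool.Agent.Helper83.G4
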